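import Pool.Agent.Helper95.ISO.GapG
import Mathlib.RingTheory.WittVector.Frobenius
import Mathlib.RingTheory.WittVector.DiscreteValuationRing
import Mathlib.RingTheory.WittVector.Complete
import Mathlib.RingTheory.WittVector.Teichmuller
import Mathlib.LinearAlgebra.Semisimple
import Mathlib.FieldTheory.Finite.Basic

set_option autoImplicit false

/-! # `K`-linear and `ℚ_p`-linear forms of the crystalline Tate conjecture -/

open Module Matrix Finset

namespace Pool.Agent.Helper95.CRY

variable {p : ℕ} [Fact p.Prime] {k κ : Type} [Field k] [CharP k p] [Fintype κ] [DecidableEq κ]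

theorem norm_mul_le {X Y : Matrix κ κ ℚ_[p]} {a b : ℝ} (ha : 0 ≤ a) (hb : 0 ≤ b)
    (hX : ∀ i j, ‖X i j‖ ≤ a) (hY : ∀ i j, ‖Y i j‖ ≤ b) (i j : κ) : ‖(X * Y) i j‖ ≤ a * b := by
  rw [Matrix.mul_apply]
  apply IsUltrametricDist.norm_sum_le_of_forall_le_of_nonneg (mul_nonneg ha hb)
  intro x _
  rw [norm_mul]
  exact mul_le_mul (hX i x) (hY x j) (norm_nonneg _) ha

theorem eq_zero_of_le {x : ℚ_[p]} {C : ℝ} (h : ∀ n : ℕ, ‖x‖ ≤ C * ((p : ℝ) ^ n)⁻¹) : x = 0 := by
  have hp : (1 : ℝ) < p := by exact_mod_cast (Fact.out : p.Prime).one_lt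
  have h1 : Filter.Tendsto (fun n : ℕ => C * ((p : ℝ) ^ n)⁻¹) Filter.atTop (nhds (C * 0)) := by
    apply Filter.Tendsto.const_mul
    exact (tendsto_pow_atTop_atTop_of_one_lt hp).inv_tendsto_atTop
  rw [mul_zero] at h1
  have h2 : ‖x‖ ≤ 0 := ge_of_tendsto' h1 h
  exact norm_le_zero_iff.1 h2

theorem norm_sub_le_max' (x y : ℚ_[p]) : ‖x - y‖ ≤ max ‖x‖ ‖y‖ := by
  rw [sub_eq_add_neg, ← norm_neg y]
  exact Padic.nonarchimedean _ _

theorem entry_bound (Z : Matrix κ κ ℚ_[p]) : ∃ C : ℝ, 0 ≤ C ∧ ∀ i j, ‖Z i j‖ ≤ C := by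
  refine ⟨∑ i, ∑ j, ‖Z i j‖, by positivity, fun i j => ?_⟩
  calc ‖Z i j‖ ≤ ∑ j, ‖Z i j‖ :=
        Finset.single_le_sum (f := fun j => ‖Z i j‖) (fun _ _ => norm_nonneg _) (mem_univ j)
    _ ≤ _ := Finset.single_le_sum (f := fun i => ∑ j, ‖Z i j‖)
        (fun _ _ => Finset.sum_nonneg fun _ _ => norm_nonneg _) (mem_univ i)

section finite

variable [Finite k]

theorem decomp (x a : WittVector p k) (h : x.coeff 0 = a.coeff 0) :
    ∃ y : WittVector p k, x = a + p • y := by
  have h1 : (x - a).coeff 0 = 0 := by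
    have h2 : WittVector.constantCoeff (x - a) = WittVector.constantCoeff x -
      WittVector.constantCoeff a := map_sub _ _ _
    have h3 : WittVector.constantCoeff (x - a) = (x - a).coeff 0 := rfl
    have h4 : WittVector.constantCoeff x = x.coeff 0 := rfl
    have h5 : WittVector.constantCoeff a = a.coeff 0 := rfl
    rw [← h3, h2, h4, h5, h, sub_self]
  rw [← WittVector.mem_span_p_iff_coeff_zero_eq_zero, Ideal.mem_span_singleton] at h1
  obtain ⟨y, hy⟩ := h1
  refine ⟨y, ?_⟩
  rw [nsmul_eq_mul, ← hy]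
  ring

/-- a matrix which commutes with the Teichmüller representatives commutes with all Witt vectors -/
theorem commute_of_teich (witt : WittVector p k →+* Matrix κ κ ℚ_[p])
    (hw : ∀ x i j, ‖witt x i j‖ ≤ 1) {Z : Matrix κ κ ℚ_[p]}
    (h : ∀ a : k, Z * witt (WittVector.teichmuller p a) = witt (WittVector.teichmuller p a) * Z) :
    ∀ x, Z * witt x = witt x * Z := by
  obtain ⟨C, hC, hZ⟩ := entry_bound Z
  have key : ∀ n : ℕ, ∀ x, ∀ i j, ‖(Z * witt x - witt x * Z) i j‖ ≤ C * ((p : ℝ) ^ n)⁻¹ := by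
    intro n
    induction n with
    | zero =>
      intro x i j
      rw [pow_zero, inv_one, mul_one, Matrix.sub_apply]
      refine (norm_sub_le_max' _ _).trans (max_le ?_ ?_)
      · have := norm_mul_le hC zero_le_one hZ (hw x) i j
        rwa [mul_one] at this
      · have := norm_mul_le zero_le_one hC (hw x) hZ i j
        rwa [one_mul] at this
    | succ n ih =>
      intro x i j
      obtain ⟨y, hy⟩ := decomp x (WittVector.teichmuller p (x.coeff 0))
        (by rw [WittVector.teichmuller_coeff_zero])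
      have e1 : Z * witt x - witt x * Z = p • (Z * witt y - witt y * Z) := by
        conv_lhs => rw [hy]
        rw [map_add, map_nsmul, mul_add, add_mul, h, mul_smul_comm, smul_mul_assoc, smul_sub]
        abel
      rw [e1, Matrix.smul_apply, nsmul_eq_mul, norm_mul, Padic.norm_p, pow_succ, mul_inv,
        mul_comm ((p : ℝ) ^ n)⁻¹, ← mul_assoc, mul_comm C, mul_assoc]
      gcongr
      exact ih y i j
  intro x
  rw [← sub_eq_zero]
  ext i j
  exact eq_zero_of_le fun n => key n x i j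

theorem natCast_coeff_zero (m : ℕ) : ((m : WittVector p k)).coeff 0 = (m : k) := by
  have h : WittVector.constantCoeff (m : WittVector p k) = (m : k) := map_natCast _ _
  exact h

theorem fixed_approx (n : ℕ) : ∀ y : WittVector p k, WittVector.frobenius y = y →
    ∃ (m : ℕ) (z : WittVector p k), y = (m : WittVector p k) + (p ^ n) • z := by
  induction n with
  | zero =>
    intro y _
    exact ⟨0, y, by simp⟩
  | succ n ih =>
    intro y hy
    have h1 : (y.coeff 0) ^ p = y.coeff 0 := by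
      rw [← WittVector.coeff_frobenius_charP, hy]
    have h2 : y.coeff 0 ∈ (⊥ : Subfield k) := (Subfield.mem_bot_iff_pow_eq_self k p).2 h1
    rw [← ZMod.fieldRange_castHom_eq_bot p] at h2
    obtain ⟨a, ha⟩ := h2
    have h3 : ((a.val : ℕ) : k) = y.coeff 0 := by
      rw [← ha, ZMod.castHom_apply, ZMod.natCast_val]
    obtain ⟨y', hy'⟩ := decomp y ((a.val : ℕ) : WittVector p k) (by
      rw [natCast_coeff_zero, h3])
    have h4 : WittVector.frobenius y' = y' := by
      have h5 : WittVector.frobenius (p • y') = p • y' := by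
        have h6 : p • y' = y - ((a.val : ℕ) : WittVector p k) := by
          rw [hy']; ring
        rw [h6, map_sub, hy, map_natCast]
      rw [map_nsmul, ← sub_eq_zero, ← smul_sub, nsmul_eq_mul, mul_comm] at h5
      exact sub_eq_zero.1 (WittVector.eq_zero_of_p_mul_eq_zero _ h5)
    obtain ⟨m, z, hz⟩ := ih y' h4
    refine ⟨a.val + p * m, z, ?_⟩
    rw [hy', hz]
    simp only [nsmul_eq_mul]
    push_cast
    ring

/-- the Witt vectors which are fixed by the Frobenius act by scalars -/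
theorem fixed_scalar (witt : WittVector p k →+* Matrix κ κ ℚ_[p])
    (hw : ∀ x i j, ‖witt x i j‖ ≤ 1) {y : WittVector p k} (hy : WittVector.frobenius y = y) :
    ∃ c : ℚ_[p], witt y = c • (1 : Matrix κ κ ℚ_[p]) := by
  have happ : ∀ n : ℕ, ∃ m : ℕ, ∀ i j, ‖witt y i j - (m : ℚ_[p]) * (1 : Matrix κ κ ℚ_[p]) i j‖ ≤
      1 * ((p : ℝ) ^ n)⁻¹ := by
    intro n
    obtain ⟨m, z, hz⟩ := fixed_approx n y hy
    refine ⟨m, fun i j => ?_⟩
    have h1 : witt y i j = (m : ℚ_[p]) * (1 : Matrix κ κ ℚ_[p]) i j + (p ^ n) • witt z i j := by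
      rw [hz, map_add, map_nsmul, map_natCast, Matrix.add_apply, Matrix.smul_apply]
      congr 1
      rw [← nsmul_one, Matrix.smul_apply, nsmul_eq_mul]
    rw [h1, add_sub_cancel_left, nsmul_eq_mul, norm_mul]
    push_cast
    rw [norm_pow, Padic.norm_p, inv_pow, mul_comm]
    gcongr
    exact hw z i j
  have hoff : ∀ i j, i ≠ j → witt y i j = 0 := by
    intro i j hij
    apply eq_zero_of_le (C := 1)
    intro n
    obtain ⟨m, hm⟩ := happ n
    have := hm i j
    rwa [Matrix.one_apply_ne hij, mul_zero, sub_zero] at this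
  have hdiag : ∀ i j, witt y i i = witt y j j := by
    intro i j
    rw [← sub_eq_zero]
    apply eq_zero_of_le (C := 1)
    intro n
    obtain ⟨m, hm⟩ := happ n
    have e1 : witt y i i - witt y j j = (witt y i i - (m : ℚ_[p]) * (1 : Matrix κ κ ℚ_[p]) i i) -
        (witt y j j - (m : ℚ_[p]) * (1 : Matrix κ κ ℚ_[p]) j j) := by
      rw [Matrix.one_apply_eq, Matrix.one_apply_eq]
      ring
    rw [e1]
    exact (norm_sub_le_max' _ _).trans (max_le (hm i i) (hm j j))
  rcases isEmpty_or_nonempty κ with hκ | ⟨⟨i₀⟩⟩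
  · exact ⟨0, Subsingleton.elim _ _⟩
  · refine ⟨witt y i₀ i₀, ?_⟩
    ext i j
    rw [Matrix.smul_apply, Matrix.one_apply, smul_eq_mul]
    by_cases h : i = j
    · rw [if_pos h, mul_one, h]
      exact hdiag j i₀
    · rw [if_neg h, mul_zero]
      exact hoff i j h

theorem iter_frob {r : ℕ} (hr : Nat.card k = p ^ r) (x : WittVector p k) :
    (WittVector.frobenius)^[r] x = x := by
  ext n
  rw [WittVector.iterate_frobenius_coeff, ← hr]
  have := Fintype.ofFinite k
  rw [Nat.card_eq_fintype_card]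
  exact FiniteField.pow_card _

theorem exists_moved {r : ℕ} (hr : Nat.card k = p ^ r) {j : ℕ} (hj0 : 0 < j) (hj : j < r) :
    ∃ b : WittVector p k, (WittVector.frobenius)^[j] b ≠ b := by
  have := Fintype.ofFinite k
  by_contra hcon
  push Not at hcon
  have hp1 : 1 < p := (Fact.out : p.Prime).one_lt
  have h1 : ∀ a : k, a ^ p ^ j = a := by
    intro a
    have h2 := congrArg (fun x : WittVector p k => x.coeff 0) (hcon (WittVector.teichmuller p a))
    simp only [WittVector.iterate_frobenius_coeff, WittVector.teichmuller_coeff_zero] at h2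
    exact h2
  have h3 : ∀ x : kˣ, x ^ (p ^ j - 1) = 1 := by
    intro x
    have h4 : (x : k) ^ p ^ j = x := h1 x
    have h5 : (x : k) ^ (p ^ j - 1) * x = 1 * x := by
      rw [← pow_succ, Nat.sub_add_cancel (Nat.one_le_pow _ _ (by omega)), h4, one_mul]
    have h6 : (x : k) ^ (p ^ j - 1) = 1 := mul_right_cancel₀ x.ne_zero h5
    exact Units.ext (by rw [Units.val_pow_eq_pow_val, h6, Units.val_one])
  rw [FiniteField.forall_pow_eq_one_iff] at h3
  have h7 : 1 < p ^ j := Nat.one_lt_pow (by omega) hp1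
  have h8 := Nat.le_of_dvd (by omega) h3
  have h9 : p ^ j < p ^ r := Nat.pow_lt_pow_right hp1 hj
  rw [← Nat.card_eq_fintype_card, hr] at h8
  omega

/-- the functions `i ↦ ∑ e_j σ^i(c_j)` -/
noncomputable def SS (p : ℕ) [Fact p.Prime] (k : Type) [Field k] [CharP k p] :
    Submodule (WittVector p k) (ℕ → WittVector p k) :=
  Submodule.span (WittVector p k) (Set.range fun c : WittVector p k =>
    fun i : ℕ => (WittVector.frobenius)^[i] c)

theorem SS_mul (b : WittVector p k) {g : ℕ → WittVector p k} (hg : g ∈ SS p k) :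
    (fun i => g i * (WittVector.frobenius)^[i] b) ∈ SS p k := by
  unfold SS at hg ⊢
  induction hg using Submodule.span_induction with
  | mem g hg =>
    obtain ⟨c, rfl⟩ := hg
    apply Submodule.subset_span
    refine ⟨c * b, ?_⟩
    funext i
    exact iterate_map_mul _ _ _ _
  | zero =>
    have : (fun i => (0 : ℕ → WittVector p k) i * (WittVector.frobenius)^[i] b) = 0 := by
      funext i
      simp
    rw [this]
    exact Submodule.zero_mem _
  | add g h _ _ h1 h2 =>
    have : (fun i => (g + h) i * (WittVector.frobenius)^[i] b) =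
        (fun i => g i * (WittVector.frobenius)^[i] b) +
          fun i => h i * (WittVector.frobenius)^[i] b := by
      funext i
      simp [add_mul]
    rw [this]
    exact Submodule.add_mem _ h1 h2
  | smul e g _ h1 =>
    have : (fun i => (e • g) i * (WittVector.frobenius)^[i] b) =
        e • fun i => g i * (WittVector.frobenius)^[i] b := by
      funext i
      simp [mul_assoc]
    rw [this]
    exact Submodule.smul_mem _ _ h1

theorem exists_sep {r : ℕ} (hr : Nat.card k = p ^ r) (n : ℕ) (hn : n < r) :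
    ∃ g ∈ SS p k, g 0 ≠ 0 ∧ ∀ i, 0 < i → i ≤ n → g i = 0 := by
  induction n with
  | zero =>
    refine ⟨fun i => (WittVector.frobenius)^[i] 1, Submodule.subset_span ⟨1, rfl⟩, ?_, ?_⟩
    · simp
    · intro i h1 h2
      omega
  | succ n ih =>
    obtain ⟨g, hg, h0, h1⟩ := ih (by omega)
    obtain ⟨b, hb⟩ := exists_moved hr (Nat.succ_pos n) hn
    refine ⟨(fun i => g i * (WittVector.frobenius)^[i] b) - ((WittVector.frobenius)^[n + 1] b) • g,
      Submodule.sub_mem _ (SS_mul b hg) (Submodule.smul_mem _ _ hg), ?_, ?_⟩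
    · simp only [Pi.sub_apply, Pi.smul_apply, Function.iterate_zero, id_eq, smul_eq_mul]
      rw [mul_comm, ← sub_mul]
      exact mul_ne_zero (sub_ne_zero.2 (Ne.symm hb)) h0
    · intro i h2 h3
      simp only [Pi.sub_apply, Pi.smul_apply, smul_eq_mul]
      rcases Nat.lt_or_ge n i with h4 | h4
      · have h5 : i = n + 1 := by omega
        rw [h5]
        ring
      · rw [h1 i h2 h4]
        ring

end finite

/-! ## The Frobenius -/

section frob

variable {witt : WittVector p k →+* Matrix κ κ ℚ_[p]} {F : Matrix κ κ ℚ_[p]}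

theorem pow_semilinear (hs : ∀ x, F * witt x = witt (WittVector.frobenius x) * F) (i : ℕ)
    (x : WittVector p k) : F ^ i * witt x = witt ((WittVector.frobenius)^[i] x) * F ^ i := by
  induction i generalizing x with
  | zero => simp
  | succ i ih =>
    rw [pow_succ, mul_assoc, hs, ← mul_assoc, ih, mul_assoc, ← pow_succ, Function.iterate_succ_apply]

/-- the trace -/
noncomputable def Tr (F : Matrix κ κ ℚ_[p]) (r : ℕ) :
    Matrix κ κ ℚ_[p] →ₗ[ℚ_[p]] Matrix κ κ ℚ_[p] :=
  ∑ i ∈ range r, (LinearMap.mulLeft ℚ_[p] (F ^ i)).comp (LinearMap.mulRight ℚ_[p] ((F ^ i)⁻¹))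

theorem Tr_apply (F : Matrix κ κ ℚ_[p]) (r : ℕ) (Z : Matrix κ κ ℚ_[p]) :
    Tr F r Z = ∑ i ∈ range r, F ^ i * (Z * (F ^ i)⁻¹) := by
  unfold Tr
  rw [LinearMap.sum_apply]
  rfl

theorem pow_unit (hF : F.det ≠ 0) (i : ℕ) : IsUnit (F ^ i).det := by
  rw [Matrix.det_pow]
  exact (isUnit_iff_ne_zero.2 hF).pow i

theorem Tr_comm (hF : F.det ≠ 0) {r : ℕ} {Z : Matrix κ κ ℚ_[p]} (h : Z * F ^ r = F ^ r * Z) :
    Tr F r Z * F = F * Tr F r Z := by
  have hg : ∀ i, F * (F ^ i * (Z * (F ^ i)⁻¹)) = F ^ (i + 1) * (Z * (F ^ (i + 1))⁻¹) * F := by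
    intro i
    have h1 : (F ^ (i + 1))⁻¹ * F = (F ^ i)⁻¹ := by
      rw [pow_succ', Matrix.mul_inv_rev, mul_assoc,
        Matrix.nonsing_inv_mul F (isUnit_iff_ne_zero.2 hF), mul_one]
    rw [mul_assoc (F ^ (i + 1)), mul_assoc Z, h1, ← mul_assoc F, ← pow_succ']
  have h2 : F ^ r * (Z * (F ^ r)⁻¹) = F ^ 0 * (Z * (F ^ 0)⁻¹) := by
    rw [← mul_assoc, ← h, mul_assoc, Matrix.mul_nonsing_inv _ (pow_unit hF r), mul_one]
    simp
  rw [Tr_apply, Finset.mul_sum, Finset.sum_congr rfl (fun i _ => hg i), Finset.sum_mul]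
  have h3 := Finset.sum_range_succ (fun i => F ^ i * (Z * (F ^ i)⁻¹) * F) r
  have h4 := Finset.sum_range_succ' (fun i => F ^ i * (Z * (F ^ i)⁻¹) * F) r
  rw [h3, h2] at h4
  exact add_right_cancel h4

theorem Tr_self (hF : F.det ≠ 0) {r : ℕ} {Z : Matrix κ κ ℚ_[p]} (h : Z * F = F * Z) :
    Tr F r Z = (r : ℚ_[p]) • Z := by
  rw [Tr_apply]
  have h1 : ∀ i ∈ range r, F ^ i * (Z * (F ^ i)⁻¹) = Z := by
    intro i _
    have h2 : Commute Z (F ^ i) := (show Commute Z F from h).pow_right i
    rw [← mul_assoc, ← h2.eq, mul_assoc, Matrix.mul_nonsing_inv _ (pow_unit hF i), mul_one]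
  rw [Finset.sum_congr rfl h1, Finset.sum_const, card_range, ← Nat.cast_smul_eq_nsmul ℚ_[p]]

theorem inv_semilinear (hF : F.det ≠ 0) (hs : ∀ x, F * witt x = witt (WittVector.frobenius x) * F)
    (i : ℕ) (x : WittVector p k) :
    (F ^ i)⁻¹ * witt ((WittVector.frobenius)^[i] x) = witt x * (F ^ i)⁻¹ := by
  have h1 := pow_semilinear hs i x
  have h2 := pow_unit hF i
  calc (F ^ i)⁻¹ * witt ((WittVector.frobenius)^[i] x)
      = (F ^ i)⁻¹ * (witt ((WittVector.frobenius)^[i] x) * F ^ i) * (F ^ i)⁻¹ := by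
        rw [mul_assoc, mul_assoc, Matrix.mul_nonsing_inv _ h2, mul_one]
    _ = _ := by
        rw [← h1, ← mul_assoc, Matrix.nonsing_inv_mul _ h2, one_mul]

theorem Tr_witt [Finite k] (hF : F.det ≠ 0)
    (hs : ∀ x, F * witt x = witt (WittVector.frobenius x) * F)
    {r : ℕ} {Z : Matrix κ κ ℚ_[p]} (h : ∀ x, Z * witt x = witt x * Z) (x : WittVector p k) :
    Tr F r Z * witt x = witt x * Tr F r Z := by
  rw [Tr_apply, Finset.sum_mul, Finset.mul_sum]
  apply Finset.sum_congr rfl
  intro i _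
  obtain ⟨y, hy⟩ := (WittVector.frobenius_bijective p k).surjective.iterate i x
  rw [← hy, mul_assoc, mul_assoc, inv_semilinear hF hs, ← mul_assoc Z, h, mul_assoc (witt y),
    ← mul_assoc (F ^ i), pow_semilinear hs, mul_assoc]

/-- the span of the products -/
noncomputable def Sp (witt : WittVector p k →+* Matrix κ κ ℚ_[p]) (S : Set (Matrix κ κ ℚ_[p])) :
    Submodule ℚ_[p] (Matrix κ κ ℚ_[p]) :=
  Submodule.span ℚ_[p] {Y | ∃ x, ∃ a ∈ S, Y = witt x * a}

theorem Sp_mul (x : WittVector p k) {S : Set (Matrix κ κ ℚ_[p])} {Y : Matrix κ κ ℚ_[p]}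
    (hY : Y ∈ Sp witt S) : witt x * Y ∈ Sp witt S := by
  unfold Sp at hY ⊢
  induction hY using Submodule.span_induction with
  | mem Y hY =>
    obtain ⟨y, a, ha, rfl⟩ := hY
    apply Submodule.subset_span
    exact ⟨x * y, a, ha, by rw [map_mul, mul_assoc]⟩
  | zero => rw [mul_zero]; exact Submodule.zero_mem _
  | add Y Z _ _ h1 h2 => rw [mul_add]; exact Submodule.add_mem _ h1 h2
  | smul c Y _ h1 => rw [mul_smul_comm]; exact Submodule.smul_mem _ _ h1

theorem span_le_Sp {S : Set (Matrix κ κ ℚ_[p])} : Submodule.span ℚ_[p] S ≤ Sp witt S := by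
  rw [Submodule.span_le]
  intro a ha
  exact Submodule.subset_span ⟨1, a, ha, by rw [map_one, one_mul]⟩

variable [Finite k]

/-- from the `K`-linear to the `ℚ_p`-linear form -/
theorem tate_of_klin (hw : ∀ x i j, ‖witt x i j‖ ≤ 1) (hF : F.det ≠ 0)
    (hs : ∀ x, F * witt x = witt (WittVector.frobenius x) * F) {r : ℕ} (hr : Nat.card k = p ^ r)
    {S : Set (Matrix κ κ ℚ_[p])} (hS : ∀ a ∈ S, a * F = F * a)
    {X : Matrix κ κ ℚ_[p]} (hX : X * F = F * X) (h : X ∈ Sp witt S) :
    X ∈ Submodule.span ℚ_[p] S := by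
  have hr0 : (r : ℚ_[p]) ≠ 0 := by
    have : r ≠ 0 := by
      rintro rfl
      rw [pow_zero] at hr
      have := Finite.one_lt_card (α := k)
      omega
    exact_mod_cast this
  have h1 : Tr F r X ∈ Submodule.span ℚ_[p] S := by
    have h2 : Sp witt S ≤ (Submodule.span ℚ_[p] S).comap (Tr F r) := by
      unfold Sp
      rw [Submodule.span_le]
      rintro _ ⟨x, a, ha, rfl⟩
      show Tr F r (witt x * a) ∈ Submodule.span ℚ_[p] S
      have h3 : Tr F r (witt x * a) =
          witt (∑ i ∈ range r, (WittVector.frobenius)^[i] x) * a := by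
        rw [Tr_apply, map_sum, Finset.sum_mul]
        apply Finset.sum_congr rfl
        intro i _
        have h4 : Commute a (F ^ i) := (show Commute a F from hS a ha).pow_right i
        rw [← mul_assoc, ← mul_assoc, pow_semilinear hs, mul_assoc _ (F ^ i) a, ← h4.eq,
          ← mul_assoc, mul_assoc, Matrix.mul_nonsing_inv _ (pow_unit hF i), mul_one]
      have h5 : WittVector.frobenius (∑ i ∈ range r, (WittVector.frobenius)^[i] x) =
          ∑ i ∈ range r, (WittVector.frobenius)^[i] x := by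
        rw [map_sum]
        have h6 := Finset.sum_range_succ (fun i => (WittVector.frobenius)^[i] x) r
        have h7 := Finset.sum_range_succ' (fun i => (WittVector.frobenius)^[i] x) r
        rw [h6, iter_frob hr] at h7
        have h8 := add_right_cancel h7
        rw [h8]
        apply Finset.sum_congr rfl
        intro i _
        rw [Function.iterate_succ_apply']
      obtain ⟨c, hc⟩ := fixed_scalar witt hw h5
      rw [h3, hc, smul_mul_assoc, one_mul]
      exact Submodule.smul_mem _ _ (Submodule.subset_span ha)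
    exact h2 h
  rw [Tr_self hF hX] at h1
  have h2 := Submodule.smul_mem _ ((r : ℚ_[p])⁻¹) h1
  rwa [smul_smul, inv_mul_cancel₀ hr0, one_smul] at h2

/-- from the `ℚ_p`-linear to the `K`-linear form, one matrix -/
theorem klin_of_traces
    (hs : ∀ x, F * witt x = witt (WittVector.frobenius x) * F) {r : ℕ} (hr : Nat.card k = p ^ r)
    {S : Set (Matrix κ κ ℚ_[p])} {X : Matrix κ κ ℚ_[p]}
    (hT : ∀ c, Tr F r (witt c * X) ∈ Submodule.span ℚ_[p] S) :
    X ∈ Sp witt S := by
  have hr0 : 0 < r := by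
    rcases Nat.eq_zero_or_pos r with rfl | h
    · rw [pow_zero] at hr
      have := Finite.one_lt_card (α := k)
      omega
    · exact h
  have hsum : ∀ g ∈ SS p k, ∑ i ∈ range r, witt (g i) * (F ^ i * (X * (F ^ i)⁻¹)) ∈ Sp witt S := by
    intro g hg
    unfold SS at hg
    induction hg using Submodule.span_induction with
    | mem g hg =>
      obtain ⟨c, rfl⟩ := hg
      apply span_le_Sp
      have h1 : ∑ i ∈ range r, witt ((WittVector.frobenius)^[i] c) * (F ^ i * (X * (F ^ i)⁻¹)) =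
          Tr F r (witt c * X) := by
        rw [Tr_apply]
        apply Finset.sum_congr rfl
        intro i _
        rw [← mul_assoc, ← pow_semilinear hs, mul_assoc, mul_assoc]
      show ∑ i ∈ range r, witt ((WittVector.frobenius)^[i] c) * (F ^ i * (X * (F ^ i)⁻¹)) ∈ _
      rw [h1]
      exact hT c
    | zero =>
      have : ∑ i ∈ range r, witt ((0 : ℕ → WittVector p k) i) * (F ^ i * (X * (F ^ i)⁻¹)) = 0 := by
        apply Finset.sum_eq_zero
        intro i _
        rw [Pi.zero_apply, map_zero, zero_mul]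
      rw [this]
      exact Submodule.zero_mem _
    | add g h _ _ h1 h2 =>
      have : ∑ i ∈ range r, witt ((g + h) i) * (F ^ i * (X * (F ^ i)⁻¹)) =
          ∑ i ∈ range r, witt (g i) * (F ^ i * (X * (F ^ i)⁻¹)) +
            ∑ i ∈ range r, witt (h i) * (F ^ i * (X * (F ^ i)⁻¹)) := by
        rw [← Finset.sum_add_distrib]
        apply Finset.sum_congr rfl
        intro i _
        rw [Pi.add_apply, map_add, add_mul]
      rw [this]
      exact Submodule.add_mem _ h1 h2
    | smul e g _ h1 =>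
      have : ∑ i ∈ range r, witt ((e • g) i) * (F ^ i * (X * (F ^ i)⁻¹)) =
          witt e * ∑ i ∈ range r, witt (g i) * (F ^ i * (X * (F ^ i)⁻¹)) := by
        rw [Finset.mul_sum]
        apply Finset.sum_congr rfl
        intro i _
        rw [Pi.smul_apply, smul_eq_mul, map_mul, mul_assoc]
      rw [this]
      exact Sp_mul e h1
  obtain ⟨g, hg, h0, h1⟩ := exists_sep hr (r - 1) (by omega)
  have h2 := hsum g hg
  have h3 : ∑ i ∈ range r, witt (g i) * (F ^ i * (X * (F ^ i)⁻¹)) = witt (g 0) * X := by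
    rw [Finset.sum_eq_single 0]
    · simp
    · intro i hi hi0
      rw [h1 i (by omega) (by have := mem_range.1 hi; omega), map_zero, zero_mul]
    · intro h
      exact absurd (mem_range.2 hr0) h
  rw [h3] at h2
  obtain ⟨m, u, hu⟩ := WittVector.exists_eq_pow_p_mul' (g 0) h0
  have h4 : witt (g 0) = ((p : ℚ_[p]) ^ m) • witt (u : WittVector p k) := by
    rw [hu, map_mul, map_pow, map_natCast]
    have : ((p : Matrix κ κ ℚ_[p])) ^ m = ((p : ℚ_[p]) ^ m) • 1 := by
      rw [← Nat.cast_pow, ← nsmul_one, ← Nat.cast_smul_eq_nsmul ℚ_[p]]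
      push_cast
      rfl
    rw [this, smul_mul_assoc, one_mul]
  have h5 := Submodule.smul_mem _ (((p : ℚ_[p]) ^ m)⁻¹) (Sp_mul (↑u⁻¹ : WittVector p k) h2)
  have h6 : ((p : ℚ_[p]) ^ m)⁻¹ • (witt (↑u⁻¹ : WittVector p k) * (witt (g 0) * X)) = X := by
    rw [h4, smul_mul_assoc, mul_smul_comm, smul_smul, inv_mul_cancel₀
      (pow_ne_zero _ Pool.Agent.Helper95.ISO.p_ne), one_smul, ← mul_assoc, ← map_mul, Units.inv_mul,
      map_one, one_mul]
  rwa [h6] at h5

/-- from the `ℚ_p`-linear to the `K`-linear form -/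
theorem klin_of_tate (hF : F.det ≠ 0)
    (hs : ∀ x, F * witt x = witt (WittVector.frobenius x) * F) {r : ℕ} (hr : Nat.card k = p ^ r)
    {S : Set (Matrix κ κ ℚ_[p])}
    (hT : ∀ Y : Matrix κ κ ℚ_[p], (∀ x, Y * witt x = witt x * Y) → Y * F = F * Y →
      Y ∈ Submodule.span ℚ_[p] S)
    {X : Matrix κ κ ℚ_[p]} (hXw : ∀ x, X * witt x = witt x * X) (hX : X * F ^ r = F ^ r * X) :
    X ∈ Sp witt S := by
  have hFw : ∀ x, F ^ r * witt x = witt x * F ^ r := by
    intro x
    rw [pow_semilinear hs, iter_frob hr]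
  apply klin_of_traces hs hr
  intro c
  apply hT
  · apply Tr_witt hF hs
    intro x
    rw [mul_assoc, hXw, ← mul_assoc, ← mul_assoc, ← map_mul, ← map_mul, mul_comm c x]
  · apply Tr_comm hF
    rw [mul_assoc, hX, ← mul_assoc, ← mul_assoc, hFw]

theorem Tr_mul_left {e : Matrix κ κ ℚ_[p]} (he : e * F = F * e) (r : ℕ) (Z : Matrix κ κ ℚ_[p]) :
    Tr F r (e * Z) = e * Tr F r Z := by
  rw [Tr_apply, Tr_apply, Finset.mul_sum]
  apply Finset.sum_congr rfl
  intro i _
  have h : Commute e (F ^ i) := (show Commute e F from he).pow_right i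
  rw [mul_assoc, ← mul_assoc, ← h.eq, mul_assoc]

theorem Tr_mul_right (hF : F.det ≠ 0) {e : Matrix κ κ ℚ_[p]} (he : e * F = F * e) (r : ℕ)
    (Z : Matrix κ κ ℚ_[p]) : Tr F r (Z * e) = Tr F r Z * e := by
  rw [Tr_apply, Tr_apply, Finset.sum_mul]
  apply Finset.sum_congr rfl
  intro i _
  have h : Commute e (F ^ i) := (show Commute e F from he).pow_right i
  have h2 : e * (F ^ i)⁻¹ = (F ^ i)⁻¹ * e := by
    have h3 := pow_unit hF i
    calc e * (F ^ i)⁻¹ = (F ^ i)⁻¹ * (F ^ i * e) * (F ^ i)⁻¹ := by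
          rw [← mul_assoc, Matrix.nonsing_inv_mul _ h3, one_mul]
      _ = _ := by
          rw [← h.eq, mul_assoc, mul_assoc, Matrix.mul_nonsing_inv _ h3, mul_one]
  rw [mul_assoc Z, h2]
  simp only [mul_assoc]

end frob

end Pool.Agent.Helper95.CRY
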