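import Pool.Agent.Helper95.CRY.KLin

set_option autoImplicit false

/-! # Semisimplicity for the semilinear and for the linear Frobenius -/

open Module Matrix Finset

namespace Pool.Agent.Helper95.CRY

variable {p : ℕ} [Fact p.Prime] {k κ : Type} [Field k] [CharP k p] [Fintype κ] [DecidableEq κ]

/-- complements from projections -/
theorem compl_of_proj {V : Submodule ℚ_[p] (κ → ℚ_[p])} {P : Matrix κ κ ℚ_[p]}
    (h1 : ∀ v, P *ᵥ v ∈ V) (h2 : ∀ v ∈ V, P *ᵥ v = v) :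
    ∃ V' : Submodule ℚ_[p] (κ → ℚ_[p]), IsCompl V V' ∧
      ∀ g : Matrix κ κ ℚ_[p], P * g = g * P → ∀ v ∈ V', g *ᵥ v ∈ V' := by
  refine ⟨LinearMap.ker (Matrix.toLin' P), ⟨?_, ?_⟩, ?_⟩
  · rw [Submodule.disjoint_def]
    intro v hv hv'
    rw [LinearMap.mem_ker, Matrix.toLin'_apply] at hv'
    rw [← h2 v hv, hv']
  · rw [codisjoint_iff, eq_top_iff]
    intro v _
    rw [Submodule.mem_sup]
    refine ⟨P *ᵥ v, h1 v, v - P *ᵥ v, ?_, by abel⟩
    rw [LinearMap.mem_ker, Matrix.toLin'_apply, Matrix.mulVec_sub, h2 _ (h1 v), sub_self]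
  · intro g hg v hv
    rw [LinearMap.mem_ker, Matrix.toLin'_apply] at hv ⊢
    rw [Matrix.mulVec_mulVec, hg, ← Matrix.mulVec_mulVec, hv, Matrix.mulVec_zero]

/-- projections from complements -/
theorem proj_of_compl {V V' : Submodule ℚ_[p] (κ → ℚ_[p])} (h : IsCompl V V') :
    ∃ P : Matrix κ κ ℚ_[p], (∀ v, P *ᵥ v ∈ V) ∧ (∀ v ∈ V, P *ᵥ v = v) ∧
      ∀ g : Matrix κ κ ℚ_[p], (∀ v ∈ V, g *ᵥ v ∈ V) → (∀ v ∈ V', g *ᵥ v ∈ V') → P * g = g * P := by
  obtain ⟨f, hf⟩ : ∃ f : (κ → ℚ_[p]) →ₗ[ℚ_[p]] (κ → ℚ_[p]),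
      f = V.subtype.comp (V.projectionOnto V' h) := ⟨_, rfl⟩
  have hV : ∀ v ∈ V, f v = v := by
    intro v hv
    rw [hf, LinearMap.comp_apply]
    have := Submodule.projectionOnto_apply_left h ⟨v, hv⟩
    rw [this]
    rfl
  have hV' : ∀ v ∈ V', f v = 0 := by
    intro v hv
    rw [hf, LinearMap.comp_apply]
    have := Submodule.projectionOnto_apply_right h ⟨v, hv⟩
    rw [this]
    rfl
  have hP : ∀ v, (LinearMap.toMatrix' f) *ᵥ v = f v := fun v => by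
    rw [← Matrix.toLin'_apply, Matrix.toLin'_toMatrix']
  refine ⟨LinearMap.toMatrix' f, fun v => ?_, fun v hv => by rw [hP, hV v hv], ?_⟩
  · rw [hP, hf, LinearMap.comp_apply]
    exact (V.projectionOnto V' h v).2
  · intro g h1 h2
    apply Matrix.toLin'.injective
    apply LinearMap.ext
    intro v
    rw [Matrix.toLin'_apply, Matrix.toLin'_apply, ← Matrix.mulVec_mulVec, ← Matrix.mulVec_mulVec,
      hP, hP]
    have hv : v ∈ V ⊔ V' := by rw [h.sup_eq_top]; exact Submodule.mem_top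
    obtain ⟨a, ha, b, hb, rfl⟩ := Submodule.mem_sup.1 hv
    rw [Matrix.mulVec_add, map_add, map_add, hV _ (h1 a ha), hV' _ (h2 b hb), hV a ha, hV' b hb,
      add_zero, add_zero]

/-- a nilpotent matrix which commutes with the operators vanishes, if there are complements -/
theorem nilpotent_zero {O : Set (Matrix κ κ ℚ_[p])}
    (hO : ∀ V : Submodule ℚ_[p] (κ → ℚ_[p]), (∀ g ∈ O, ∀ v ∈ V, g *ᵥ v ∈ V) →
      ∃ V' : Submodule ℚ_[p] (κ → ℚ_[p]), (∀ g ∈ O, ∀ v ∈ V', g *ᵥ v ∈ V') ∧ IsCompl V V')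
    {N : Matrix κ κ ℚ_[p]} (hN : ∀ g ∈ O, N * g = g * N)
    (hN' : ∀ V' : Submodule ℚ_[p] (κ → ℚ_[p]), (∀ g ∈ O, ∀ v ∈ V', g *ᵥ v ∈ V') →
      ∀ v ∈ V', N *ᵥ v ∈ V') {n : ℕ} (hn : N ^ n = 0) : N = 0 := by
  obtain ⟨V', h1, h2⟩ := hO (LinearMap.ker (Matrix.toLin' N)) (by
    intro g hg v hv
    rw [LinearMap.mem_ker, Matrix.toLin'_apply] at hv ⊢
    rw [Matrix.mulVec_mulVec, hN g hg, ← Matrix.mulVec_mulVec, hv, Matrix.mulVec_zero])
  have h3 : ∀ j : ℕ, ∀ v ∈ V', N ^ j *ᵥ v = 0 → v = 0 := by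
    intro j
    induction j with
    | zero =>
      intro v _ hv
      rwa [pow_zero, Matrix.one_mulVec] at hv
    | succ j ih =>
      intro v hv hj
      rw [pow_succ, ← Matrix.mulVec_mulVec] at hj
      have h4 := ih (N *ᵥ v) (hN' V' h1 v hv) hj
      have h5 : v ∈ LinearMap.ker (Matrix.toLin' N) := by
        rw [LinearMap.mem_ker, Matrix.toLin'_apply]
        exact h4
      exact (Submodule.disjoint_def.1 h2.disjoint) v h5 hv
  have h4 : V' = ⊥ := by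
    rw [Submodule.eq_bot_iff]
    intro v hv
    exact h3 n v hv (by rw [hn, Matrix.zero_mulVec])
  rw [h4] at h2
  have h5 : LinearMap.ker (Matrix.toLin' N) = ⊤ := by
    have := h2.sup_eq_top
    rwa [sup_bot_eq] at this
  apply Matrix.toLin'.injective
  rw [map_zero]
  exact LinearMap.ker_eq_top.1 h5

variable {witt : WittVector p k →+* Matrix κ κ ℚ_[p]} {F : Matrix κ κ ℚ_[p]}

/-- polynomials in a matrix -/
theorem aeval_stable (G : Matrix κ κ ℚ_[p]) (f : Polynomial ℚ_[p])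
    {V : Submodule ℚ_[p] (κ → ℚ_[p])} (hV : ∀ v ∈ V, G *ᵥ v ∈ V) :
    ∀ v ∈ V, Polynomial.aeval G f *ᵥ v ∈ V := by
  intro v hv
  have hpow : ∀ n : ℕ, G ^ n *ᵥ v ∈ V := by
    intro n
    induction n with
    | zero => rwa [pow_zero, Matrix.one_mulVec]
    | succ n ih => rw [pow_succ', ← Matrix.mulVec_mulVec]; exact hV _ ih
  rw [Polynomial.aeval_eq_sum_range, Matrix.sum_mulVec]
  apply Submodule.sum_mem
  intro i _
  rw [Matrix.smul_mulVec]
  exact Submodule.smul_mem _ _ (hpow i)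

theorem aeval_comm (G : Matrix κ κ ℚ_[p]) (f : Polynomial ℚ_[p]) {X : Matrix κ κ ℚ_[p]}
    (h : G * X = X * G) : Polynomial.aeval G f * X = X * Polynomial.aeval G f := by
  have h1 : Commute G X := h
  rw [Polynomial.aeval_eq_sum_range, Finset.sum_mul, Finset.mul_sum]
  apply Finset.sum_congr rfl
  intro i _
  rw [smul_mul_assoc, mul_smul_comm, (h1.pow_left i).eq]

/-- semisimplicity of the linear Frobenius as a `ℚ_p`-linear map -/
theorem frob_semisimple [Finite k] {r : ℕ} (hr : Nat.card k = p ^ r)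
    (hs : ∀ x, F * witt x = witt (WittVector.frobenius x) * F)
    (hO : ∀ V : Submodule ℚ_[p] (κ → ℚ_[p]), (∀ x, ∀ v ∈ V, witt x *ᵥ v ∈ V) →
      (∀ v ∈ V, F *ᵥ v ∈ V) → ∃ V' : Submodule ℚ_[p] (κ → ℚ_[p]),
      (∀ x, ∀ v ∈ V', witt x *ᵥ v ∈ V') ∧ (∀ v ∈ V', F *ᵥ v ∈ V') ∧ IsCompl V V') :
    Module.End.IsSemisimple (Matrix.toLin' (F ^ r)) := by
  obtain ⟨O, hOe⟩ : ∃ O : Set (Matrix κ κ ℚ_[p]), O = insert F (Set.range witt) := ⟨_, rfl⟩
  have hO' : ∀ V : Submodule ℚ_[p] (κ → ℚ_[p]), (∀ g ∈ O, ∀ v ∈ V, g *ᵥ v ∈ V) →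
      ∃ V' : Submodule ℚ_[p] (κ → ℚ_[p]), (∀ g ∈ O, ∀ v ∈ V', g *ᵥ v ∈ V') ∧ IsCompl V V' := by
    intro V hV
    obtain ⟨V', h1, h2, h3⟩ := hO V (fun x => hV _ (by rw [hOe]; exact Or.inr ⟨x, rfl⟩))
      (hV _ (by rw [hOe]; exact Or.inl rfl))
    refine ⟨V', ?_, h3⟩
    intro g hg
    rw [hOe] at hg
    rcases hg with rfl | ⟨x, rfl⟩
    · exact h2
    · exact h1 x
  obtain ⟨f, n, hf1, -, hf3⟩ := exists_squarefree_dvd_pow_of_ne_zero
    (minpoly.ne_zero_of_finite ℚ_[p] (F ^ r))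
  have hcomm : ∀ g ∈ O, F ^ r * g = g * F ^ r := by
    intro g hg
    rw [hOe] at hg
    rcases hg with rfl | ⟨x, rfl⟩
    · rw [← pow_succ, pow_succ']
    · rw [pow_semilinear hs, iter_frob hr]
  have hz : Polynomial.aeval (F ^ r) f = 0 := by
    apply nilpotent_zero hO' (n := n)
    · intro g hg
      exact aeval_comm _ _ (hcomm g hg)
    · intro V' hV'
      apply aeval_stable
      have hF : ∀ v ∈ V', F *ᵥ v ∈ V' := hV' F (by rw [hOe]; exact Or.inl rfl)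
      intro v hv
      have : ∀ n : ℕ, F ^ n *ᵥ v ∈ V' := by
        intro n
        induction n with
        | zero => rwa [pow_zero, Matrix.one_mulVec]
        | succ n ih => rw [pow_succ', ← Matrix.mulVec_mulVec]; exact hF _ ih
      exact this r
    · rw [← map_pow]
      obtain ⟨g, hg⟩ := hf3
      rw [hg, map_mul, minpoly.aeval, zero_mul]
  apply Module.End.isSemisimple_of_squarefree_aeval_eq_zero hf1
  have h1 : Polynomial.aeval (Matrix.toLin' (F ^ r)) f = Matrix.toLin' (Polynomial.aeval (F ^ r) f) := by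
    have := Polynomial.aeval_algHom_apply (Matrix.toLinAlgEquiv' (R := ℚ_[p]) (n := κ)).toAlgHom (F ^ r) f
    exact this
  rw [h1, hz, map_zero]

theorem teich_mul (a : kˣ) : witt (WittVector.teichmuller p (a : k)) *
    witt (WittVector.teichmuller p ((a⁻¹ : kˣ) : k)) = 1 := by
  rw [← map_mul, ← map_mul, ← Units.val_mul, mul_inv_cancel, Units.val_one, map_one, map_one]

/-- complements for the linear Frobenius from complements for the semilinear Frobenius -/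
theorem ss_lin_of_semi [Finite k] {r : ℕ} (hr : Nat.card k = p ^ r)
    (hw : ∀ x i j, ‖witt x i j‖ ≤ 1)
    (hs : ∀ x, F * witt x = witt (WittVector.frobenius x) * F)
    (hO : ∀ V : Submodule ℚ_[p] (κ → ℚ_[p]), (∀ x, ∀ v ∈ V, witt x *ᵥ v ∈ V) →
      (∀ v ∈ V, F *ᵥ v ∈ V) → ∃ V' : Submodule ℚ_[p] (κ → ℚ_[p]),
      (∀ x, ∀ v ∈ V', witt x *ᵥ v ∈ V') ∧ (∀ v ∈ V', F *ᵥ v ∈ V') ∧ IsCompl V V')
    (V : Submodule ℚ_[p] (κ → ℚ_[p])) (hV1 : ∀ x, ∀ v ∈ V, witt x *ᵥ v ∈ V)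
    (hV2 : ∀ v ∈ V, F ^ r *ᵥ v ∈ V) : ∃ V' : Submodule ℚ_[p] (κ → ℚ_[p]),
      (∀ x, ∀ v ∈ V', witt x *ᵥ v ∈ V') ∧ (∀ v ∈ V', F ^ r *ᵥ v ∈ V') ∧ IsCompl V V' := by
  have := Fintype.ofFinite k
  classical
  have hsem := frob_semisimple hr hs hO
  rw [Module.End.isSemisimple_iff] at hsem
  obtain ⟨V₁, h1, h2⟩ := hsem V (by
    intro v hv
    exact hV2 v hv)
  obtain ⟨P, hP1, hP2, hP3⟩ := proj_of_compl h2
  have hPF : P * F ^ r = F ^ r * P := hP3 _ hV2 (fun v hv => h1 hv)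
  obtain ⟨c, hc⟩ : ∃ c : ℚ_[p], c = (Fintype.card kˣ : ℚ_[p]) := ⟨_, rfl⟩
  have hc0 : c ≠ 0 := by
    rw [hc]
    exact_mod_cast Fintype.card_ne_zero
  obtain ⟨t, ht⟩ : ∃ t : k → Matrix κ κ ℚ_[p], t = fun a => witt (WittVector.teichmuller p a) :=
    ⟨_, rfl⟩
  have ht1 : ∀ a : kˣ, t a * t ((a⁻¹ : kˣ) : k) = 1 := by
    intro a
    rw [ht]
    exact teich_mul a
  have ht2 : ∀ a b : k, t (a * b) = t a * t b := by
    intro a b
    rw [ht]
    simp only [map_mul]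
  have ht3 : ∀ a, F ^ r * t a = t a * F ^ r := by
    intro a
    rw [ht]
    simp only
    rw [pow_semilinear hs, iter_frob hr]
  obtain ⟨Q, hQ⟩ : ∃ Q : Matrix κ κ ℚ_[p],
      Q = c⁻¹ • ∑ a : kˣ, t a * P * t ((a⁻¹ : kˣ) : k) := ⟨_, rfl⟩
  have hQ1 : ∀ v, Q *ᵥ v ∈ V := by
    intro v
    rw [hQ, Matrix.smul_mulVec, Matrix.sum_mulVec]
    apply Submodule.smul_mem
    apply Submodule.sum_mem
    intro a _
    rw [← Matrix.mulVec_mulVec, ← Matrix.mulVec_mulVec, ht]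
    exact hV1 _ _ (hP1 _)
  have hQ2 : ∀ v ∈ V, Q *ᵥ v = v := by
    intro v hv
    rw [hQ, Matrix.smul_mulVec, Matrix.sum_mulVec]
    have h3 : ∀ a ∈ (univ : Finset kˣ), (t a * P * t ((a⁻¹ : kˣ) : k)) *ᵥ v = v := by
      intro a _
      rw [← Matrix.mulVec_mulVec, ← Matrix.mulVec_mulVec,
        hP2 _ (by rw [ht]; exact hV1 _ _ hv), Matrix.mulVec_mulVec, ht1, Matrix.one_mulVec]
    rw [Finset.sum_congr rfl h3, Finset.sum_const, card_univ, ← Nat.cast_smul_eq_nsmul ℚ_[p], ← hc,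
      smul_smul, inv_mul_cancel₀ hc0, one_smul]
  have hQF : Q * F ^ r = F ^ r * Q := by
    rw [hQ, smul_mul_assoc, mul_smul_comm, Finset.sum_mul, Finset.mul_sum]
    congr 1
    apply Finset.sum_congr rfl
    intro a _
    rw [mul_assoc (t a * P), ← ht3, ← mul_assoc, mul_assoc (t a), hPF, ← mul_assoc, ← ht3]
    simp only [mul_assoc]
  have hQt : ∀ b : kˣ, Q * t b = t b * Q := by
    intro b
    have h4 : t b * Q * t ((b⁻¹ : kˣ) : k) = Q := by
      rw [hQ, mul_smul_comm, smul_mul_assoc, Finset.mul_sum, Finset.sum_mul]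
      congr 1
      rw [← Fintype.sum_bijective (fun a : kˣ => b * a) (Group.mulLeft_bijective b)
        (fun a => t b * (t a * P * t ((a⁻¹ : kˣ) : k)) * t ((b⁻¹ : kˣ) : k))
        (fun a => t a * P * t ((a⁻¹ : kˣ) : k))]
      intro a
      rw [_root_.mul_inv_rev, Units.val_mul, Units.val_mul, ht2, ht2]
      simp only [mul_assoc]
    have h5 : t ((b⁻¹ : kˣ) : k) * t b = 1 := by
      have := ht1 b⁻¹
      rwa [inv_inv] at this
    calc Q * t b = t b * Q * t ((b⁻¹ : kˣ) : k) * t b := by rw [h4]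
      _ = t b * Q := by rw [mul_assoc, h5, mul_one]
  have hQw : ∀ x, Q * witt x = witt x * Q := by
    apply commute_of_teich witt hw
    intro a
    by_cases ha : a = 0
    · rw [ha, WittVector.teichmuller_zero, map_zero, mul_zero, zero_mul]
    · have := hQt (Units.mk0 a ha)
      rw [ht] at this
      exact this
  obtain ⟨V', h3, h4⟩ := compl_of_proj hQ1 hQ2
  exact ⟨V', fun x => h4 _ (hQw x), h4 _ hQF, h3⟩

/-- complements for the semilinear Frobenius from complements for the linear Frobenius -/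
theorem ss_semi_of_lin [Finite k] {r : ℕ} (hr : Nat.card k = p ^ r) (hF : F.det ≠ 0)
    (hs : ∀ x, F * witt x = witt (WittVector.frobenius x) * F)
    (hO : ∀ V : Submodule ℚ_[p] (κ → ℚ_[p]), (∀ x, ∀ v ∈ V, witt x *ᵥ v ∈ V) →
      (∀ v ∈ V, F ^ r *ᵥ v ∈ V) → ∃ V' : Submodule ℚ_[p] (κ → ℚ_[p]),
      (∀ x, ∀ v ∈ V', witt x *ᵥ v ∈ V') ∧ (∀ v ∈ V', F ^ r *ᵥ v ∈ V') ∧ IsCompl V V')
    (V : Submodule ℚ_[p] (κ → ℚ_[p])) (hV1 : ∀ x, ∀ v ∈ V, witt x *ᵥ v ∈ V)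
    (hV2 : ∀ v ∈ V, F *ᵥ v ∈ V) : ∃ V' : Submodule ℚ_[p] (κ → ℚ_[p]),
      (∀ x, ∀ v ∈ V', witt x *ᵥ v ∈ V') ∧ (∀ v ∈ V', F *ᵥ v ∈ V') ∧ IsCompl V V' := by
  have hr0 : (r : ℚ_[p]) ≠ 0 := by
    have : r ≠ 0 := by
      rintro rfl
      rw [pow_zero] at hr
      have := Finite.one_lt_card (α := k)
      omega
    exact_mod_cast this
  have hpow : ∀ n : ℕ, ∀ v ∈ V, F ^ n *ᵥ v ∈ V := by
    intro n
    induction n with
    | zero => intro v hv; rwa [pow_zero, Matrix.one_mulVec]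
    | succ n ih =>
      intro v hv
      rw [pow_succ', ← Matrix.mulVec_mulVec]
      exact hV2 _ (ih v hv)
  have hinv : ∀ n : ℕ, ∀ v ∈ V, (F ^ n)⁻¹ *ᵥ v ∈ V := by
    intro n v hv
    have hle : V.map (Matrix.toLin' (F ^ n)) ≤ V := by
      rw [Submodule.map_le_iff_le_comap]
      intro w hw
      exact hpow n w hw
    have hinj : Function.Injective (Matrix.toLin' (F ^ n)) := by
      intro x y hxy
      rw [Matrix.toLin'_apply, Matrix.toLin'_apply] at hxy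
      have := congrArg (fun z => (F ^ n)⁻¹ *ᵥ z) hxy
      simpa only [Matrix.mulVec_mulVec, Matrix.nonsing_inv_mul _ (pow_unit hF n),
        Matrix.one_mulVec] using this
    have heq : V.map (Matrix.toLin' (F ^ n)) = V := by
      apply Submodule.eq_of_le_of_finrank_eq hle
      exact LinearEquiv.finrank_eq (Submodule.equivMapOfInjective _ hinj V).symm
    rw [← heq] at hv
    obtain ⟨w, hw, rfl⟩ := hv
    rw [Matrix.toLin'_apply, Matrix.mulVec_mulVec, Matrix.nonsing_inv_mul _ (pow_unit hF n),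
      Matrix.one_mulVec]
    exact hw
  obtain ⟨V₁, h1, h2, h3⟩ := hO V hV1 (hpow r)
  obtain ⟨P, hP1, hP2, hP3⟩ := proj_of_compl h3
  have hPF : P * F ^ r = F ^ r * P := hP3 _ (hpow r) h2
  have hPw : ∀ x, P * witt x = witt x * P := fun x => hP3 _ (hV1 x) (h1 x)
  obtain ⟨Q, hQ⟩ : ∃ Q : Matrix κ κ ℚ_[p], Q = (r : ℚ_[p])⁻¹ • Tr F r P := ⟨_, rfl⟩
  have hQ1 : ∀ v, Q *ᵥ v ∈ V := by
    intro v
    rw [hQ, Tr_apply, Matrix.smul_mulVec, Matrix.sum_mulVec]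
    apply Submodule.smul_mem
    apply Submodule.sum_mem
    intro i _
    rw [← Matrix.mulVec_mulVec, ← Matrix.mulVec_mulVec]
    exact hpow i _ (hP1 _)
  have hQ2 : ∀ v ∈ V, Q *ᵥ v = v := by
    intro v hv
    rw [hQ, Tr_apply, Matrix.smul_mulVec, Matrix.sum_mulVec]
    have h4 : ∀ i ∈ range r, (F ^ i * (P * (F ^ i)⁻¹)) *ᵥ v = v := by
      intro i _
      rw [← Matrix.mulVec_mulVec, ← Matrix.mulVec_mulVec, hP2 _ (hinv i v hv), Matrix.mulVec_mulVec,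
        Matrix.mul_nonsing_inv _ (pow_unit hF i), Matrix.one_mulVec]
    rw [Finset.sum_congr rfl h4, Finset.sum_const, card_range, ← Nat.cast_smul_eq_nsmul ℚ_[p],
      smul_smul, inv_mul_cancel₀ hr0, one_smul]
  have hQF : Q * F = F * Q := by
    rw [hQ, smul_mul_assoc, mul_smul_comm, Tr_comm hF hPF]
  have hQw : ∀ x, Q * witt x = witt x * Q := by
    intro x
    rw [hQ, smul_mul_assoc, mul_smul_comm, Tr_witt hF hs hPw]
  obtain ⟨V', h4, h5⟩ := compl_of_proj hQ1 hQ2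
  exact ⟨V', fun x => h5 _ (hQw x), h5 _ hQF, h4⟩

end Pool.Agent.Helper95.CRY
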